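import Mathlib
import Pool.Agent.Results.MP_e99302_nt.RunsOfEqualHeight

set_option autoImplicit false

/-! The density of the zeros among the consecutive stopping time differences. -/

namespace Pool.Agent.Results.MP_34aa70_nt.LimitOfZeros

open Filter Topology

/-- The Collatz map. -/
def C (n : ℕ) : ℕ := if n % 2 = 0 then n / 2 else 3 * n + 1

/-- `T(n)` is defined: some iterate of `n` equals `1`. -/
def Defined (n : ℕ) : Prop := ∃ k, C^[k] n = 1

/-- `T(n)`, the least `k ≥ 0` with `C^k(n) = 1` (meaningful only if `Defined n`). -/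
noncomputable def T (n : ℕ) : ℕ := sInf {k | C^[k] n = 1}

/-- `a(n) = T(n+1) - T(n)` (meaningful only if `Defined n` and `Defined (n + 1)`). -/
noncomputable def a (n : ℕ) : ℤ := (T (n + 1) : ℤ) - T n

/-- `Z(N)`, the number of the `1 ≤ i ≤ N` for which `a(i)` is defined and equal to `0`. -/
noncomputable def Z (N : ℕ) : ℕ :=
  {i : ℕ | 1 ≤ i ∧ i ≤ N ∧ (Defined i ∧ Defined (i + 1)) ∧ a i = 0}.ncard

/-- The number of the `1 ≤ i ≤ N` for which `T(i)` is defined. -/
noncomputable def D (N : ℕ) : ℕ := {i : ℕ | 1 ≤ i ∧ i ≤ N ∧ Defined i}.ncard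

theorem hasHeight_iff (n k : ℕ) :
    Pool.Agent.Results.MP_e99302_nt.RunsOfEqualHeight.HasHeight n k ↔ Defined n ∧ T n = k := by
  constructor
  · rintro ⟨h1, h2⟩
    refine ⟨⟨k, h1⟩, ?_⟩
    apply le_antisymm
    · exact Nat.sInf_le h1
    · by_contra hcon
      exact h2 _ (not_le.1 hcon) (Nat.sInf_mem (s := {k | C^[k] n = 1}) ⟨k, h1⟩)
  · rintro ⟨h1, rfl⟩
    exact ⟨Nat.sInf_mem (s := {k | C^[k] n = 1}) h1, fun j hj hj1 => Nat.notMem_of_lt_sInf hj hj1⟩

theorem run_iff (n : ℕ) : Pool.Agent.Results.MP_e99302_nt.RunsOfEqualHeight.Run 2 n ↔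
    (Defined n ∧ Defined (n + 1)) ∧ a n = 0 := by
  unfold Pool.Agent.Results.MP_e99302_nt.RunsOfEqualHeight.Run a
  constructor
  · rintro ⟨k, hk⟩
    have h0 := (hasHeight_iff _ _).1 (hk 0 (by omega))
    have h1 := (hasHeight_iff _ _).1 (hk 1 (by omega))
    rw [add_zero] at h0
    refine ⟨⟨h0.1, h1.1⟩, ?_⟩
    rw [h0.2, h1.2, sub_self]
  · rintro ⟨⟨h0, h1⟩, h2⟩
    refine ⟨T n, fun i hi => ?_⟩
    rw [hasHeight_iff]
    interval_cases i
    · exact ⟨h0, rfl⟩
    · exact ⟨h1, by omega⟩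

/-- **Main theorem.**  The limit `δ` of `Z(N) / N` exists and is positive. It is the natural density
of the set of the integers which reach `1`, and it is `1` if and only if the Collatz conjecture holds.
In particular almost all of the terms `a(i)`, `i ≤ N`, which are defined are `0`: the quotient of
`Z(N)` by the number of the `i ≤ N` for which `T(i)` is defined tends to `1`. -/
theorem result : (∃ δ : ℝ, 0 < δ ∧ δ ≤ 1 ∧ (δ = 1 ↔ ∀ n, 1 ≤ n → Defined n) ∧
      Tendsto (fun N : ℕ => (Z N : ℝ) / N) atTop (𝓝 δ) ∧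
      Tendsto (fun N : ℕ => (D N : ℝ) / N) atTop (𝓝 δ)) ∧
    Tendsto (fun N : ℕ => (Z N : ℝ) / D N) atTop (𝓝 1) := by
  obtain ⟨_, δ, h0, h1, h2, h3, _⟩ := Pool.Agent.Results.MP_e99302_nt.RunsOfEqualHeight.result
  have hZ : Tendsto (fun N : ℕ => (Z N : ℝ) / N) atTop (𝓝 δ) := by
    refine (h3 2 (by norm_num)).congr fun N => ?_
    unfold Z
    congr 3
    ext n
    simp only [Set.mem_ofPred_eq, run_iff]
  have hD : Tendsto (fun N : ℕ => (D N : ℝ) / N) atTop (𝓝 δ) := by
    refine (h3 1 le_rfl).congr fun N => ?_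
    unfold D
    congr 3
    ext n
    simp only [Set.mem_ofPred_eq]
    refine and_congr_right fun _ => and_congr_right fun _ => ?_
    constructor
    · rintro ⟨k, hk⟩
      exact ((hasHeight_iff _ _).1 (hk 0 (by omega))).1
    · intro h
      refine ⟨T n, fun i hi => ?_⟩
      interval_cases i
      exact (hasHeight_iff _ _).2 ⟨h, rfl⟩
  refine ⟨⟨δ, h0, h1, h2, hZ, hD⟩, ?_⟩
  have h4 := hZ.div hD h0.ne'
  rw [div_self h0.ne'] at h4
  refine h4.congr' ?_
  filter_upwards [eventually_gt_atTop 0] with N hN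
  have hNr : (N : ℝ) ≠ 0 := by exact_mod_cast hN.ne'
  simp only [Pi.div_apply]
  field_simp

end Pool.Agent.Results.MP_34aa70_nt.LimitOfZeros
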